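import Mathlib
import Pool.Agent.H242R3.ES.StmtsK
import Pool.Agent.SphJam.Farkas

set_option autoImplicit false
set_option maxHeartbeats 4000000

/-! Project H242-ES, task K4: description of a pointed cone by its facets. -/

open MeasureTheory Finset
open scoped Classical

namespace Pool.Agent.H87R3.ESK

open Pool.Agent.H242R3.ES

/-- Farkas lemma for a pointed finitely generated cone -/
theorem farkas {ι E : Type} [Fintype ι] [AddCommGroup E] [Module ℝ E] [FiniteDimensional ℝ E]
    (V : ι → E) (S : Set ι) (h0 : Face V ∅) (y : E) :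
    (∃ g : E →ₗ[ℝ] ℝ, (∀ i ∈ S, 0 ≤ g (V i)) ∧ g y < 0) ∨
    ∃ a : ι → ℝ, (∀ i, 0 ≤ a i) ∧ (∀ i, a i ≠ 0 → i ∈ S) ∧ y = ∑ i, a i • V i := by
  obtain ⟨p, hp0, hp⟩ := h0
  have hppos : ∀ i, 0 < p (V i) := by
    intro i
    rcases (hp0 i).lt_or_eq with h | h
    · exact h
    · exact absurd ((hp i).mpr h.symm) (Set.notMem_empty i)
  rcases SphJam.farkas_strict (U := Module.Dual ℝ E) (K := Option S)
    (fun k => match k with
      | none => Module.Dual.eval ℝ E y
      | some i => -(Module.Dual.eval ℝ E (V i)))
    (fun _ => 0) with ⟨g, hg⟩ | ⟨w, hw0, ⟨k0, hk0⟩, hw, -⟩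
  · left
    refine ⟨g, fun i hi => ?_, ?_⟩
    · have := hg (some ⟨i, hi⟩)
      simp only [LinearMap.neg_apply, Module.Dual.eval_apply, add_zero] at this
      linarith
    · have := hg none
      simpa [Module.Dual.eval_apply] using this
  · right
    have hw' : ∀ g : Module.Dual ℝ E, w none * g y = ∑ i : S, w (some i) * g (V i) := by
      intro g
      have := hw g
      rw [Fintype.sum_option] at this
      simp only [LinearMap.neg_apply, Module.Dual.eval_apply, mul_neg, Finset.sum_neg_distrib] at this
      linarith
    have hwn : 0 < w none := by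
      rcases (hw0 none).lt_or_eq with h | h
      · exact h
      · exfalso
        have h1 := hw' p
        rw [← h, zero_mul] at h1
        have h2 : ∀ i ∈ (Finset.univ : Finset S), 0 ≤ w (some i) * p (V i) := fun i _ =>
          mul_nonneg (hw0 _) (hppos _).le
        have h3 := (Finset.sum_eq_zero_iff_of_nonneg h2).mp h1.symm
        cases k0 with
        | none => exact hk0 h.symm
        | some i =>
          have := h3 i (Finset.mem_univ _)
          rcases mul_eq_zero.mp this with h4 | h4
          · exact hk0 h4
          · exact absurd h4 (hppos _).ne'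
    have hvec : w none • y - ∑ i : S, w (some i) • V i = 0 := by
      rw [← Module.forall_dual_apply_eq_zero_iff ℝ]
      intro g
      rw [map_sub, map_smul, map_sum, smul_eq_mul, hw' g]
      simp only [map_smul, smul_eq_mul, sub_self]
    let w' : ι → ℝ := fun i => if h : i ∈ S then w (some ⟨i, h⟩) else 0
    have hsum : ∑ i : S, w (some i) • V i = ∑ i, w' i • V i := by
      have e1 : ∑ i : S, w (some i) • V i = ∑ i : S, (fun i : ι => w' i • V i) i := by
        apply Finset.sum_congr rfl
        intro i _
        show w (some i) • V i = w' i • V i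
        have : w' i = w (some i) := by
          show (if h : (i : ι) ∈ S then w (some ⟨i, h⟩) else 0) = w (some i)
          rw [dif_pos i.2]
        rw [this]
      have e2 : ∑ i ∈ Finset.univ.filter (fun i => i ∈ S), w' i • V i =
          ∑ i : S, (fun i : ι => w' i • V i) i :=
        Finset.sum_subtype (Finset.univ.filter (fun i => i ∈ S)) (fun x => by simp)
          (fun i : ι => w' i • V i)
      rw [e1, ← e2]
      apply Finset.sum_subset (Finset.subset_univ _)
      intro i _ hi
      have hi' : i ∉ S := fun h => hi (by simpa using h)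
      show w' i • V i = 0
      have : w' i = 0 := by
        show (if h : (i : ι) ∈ S then w (some ⟨i, h⟩) else 0) = 0
        rw [dif_neg hi']
      rw [this, zero_smul]
    refine ⟨fun i => (w none)⁻¹ * w' i, fun i => ?_, fun i hi => ?_, ?_⟩
    · refine mul_nonneg (inv_nonneg.mpr hwn.le) ?_
      show 0 ≤ (if h : (i : ι) ∈ S then w (some ⟨i, h⟩) else 0)
      split
      · exact hw0 _
      · exact le_rfl
    · by_contra h
      apply hi
      have : w' i = 0 := by
        show (if h : (i : ι) ∈ S then w (some ⟨i, h⟩) else 0) = 0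
        rw [dif_neg h]
      show (w none)⁻¹ * w' i = 0
      rw [this, mul_zero]
    · have h1 : w none • y = ∑ i, w' i • V i := by rw [← hsum]; exact sub_eq_zero.mp hvec
      calc y = (w none)⁻¹ • (w none • y) := by rw [smul_smul, inv_mul_cancel₀ hwn.ne', one_smul]
        _ = (w none)⁻¹ • ∑ i, w' i • V i := by rw [h1]
        _ = ∑ i, ((w none)⁻¹ * w' i) • V i := by
          rw [Finset.smul_sum]
          apply Finset.sum_congr rfl
          intro i _
          rw [smul_smul]

theorem t : TaskK4 := by
  intro hG1 _ hG3 ι E _ _ _ _ V S hS h0 _ y hy hfac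
  rcases farkas V S h0 y with ⟨g, hg, hgy⟩ | h
  swap
  · exact h
  exfalso
  have key : ∀ (n : ℕ) (g : E →ₗ[ℝ] ℝ), (∀ i ∈ S, 0 ≤ g (V i)) → g y < 0 →
      (Finset.univ.filter (fun i => i ∈ S ∧ g (V i) ≠ 0)).card ≤ n → False := by
    intro n
    induction n with
    | zero =>
      intro g hg hgy hn
      have hn0 : Finset.univ.filter (fun i => i ∈ S ∧ g (V i) ≠ 0) = ∅ :=
        Finset.card_eq_zero.mp (Nat.le_zero.mp hn)
      have hz : ∀ i ∈ S, g (V i) = 0 := by
        intro i hi
        by_contra h
        have : i ∈ Finset.univ.filter (fun i => i ∈ S ∧ g (V i) ≠ 0) := by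
          simp [hi, h]
        rw [hn0] at this
        simp at this
      have hle : Submodule.span ℝ (V '' S) ≤ LinearMap.ker g := by
        rw [Submodule.span_le]
        rintro _ ⟨i, hi, rfl⟩
        exact hz i hi
      have : g y = 0 := hle hy
      linarith
    | succ n ih =>
      intro g hg hgy hn
      by_cases hall : ∀ i ∈ S, g (V i) = 0
      · have hle : Submodule.span ℝ (V '' S) ≤ LinearMap.ker g := by
          rw [Submodule.span_le]
          rintro _ ⟨i, hi, rfl⟩
          exact hall i hi
        have : g y = 0 := hle hy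
        linarith
      · push Not at hall
        obtain ⟨j, hjS, hj⟩ := hall
        let Z : Set ι := {i | i ∈ S ∧ g (V i) = 0}
        have hZS : Z ⊆ S := fun i hi => hi.1
        have hZ : Face V Z := hG1 ι E V S Z hS hZS ⟨g, hg, fun i hi => ⟨fun h => h.2, fun h => ⟨hi, h⟩⟩⟩
        have hZne : Z ⊂ S := by
          refine ⟨hZS, fun h => hj (h hjS).2⟩
        obtain ⟨-, T, hZT, hT⟩ := hG3 ι E V Z S hZ hS hZne
        obtain ⟨hTf, -, hTS, -⟩ := id hT
        obtain ⟨h, hh0, hhT⟩ := hTf
        have hhy : 0 ≤ h y := hfac T hT h (fun i _ => hh0 i) (fun i _ => hhT i)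
        have hFne : (Finset.univ.filter (fun i => i ∈ S ∧ i ∉ T)).Nonempty := by
          obtain ⟨i, hi1, hi2⟩ := Set.exists_of_ssubset hTS
          exact ⟨i, by simp [hi1, hi2]⟩
        obtain ⟨i0, hi0, hmin⟩ := Finset.exists_min_image _ (fun i => g (V i) / h (V i)) hFne
        have hi0' : i0 ∈ S ∧ i0 ∉ T := by simpa using hi0
        have hhpos : ∀ i, i ∉ T → 0 < h (V i) := by
          intro i hi
          rcases (hh0 i).lt_or_eq with h1 | h1
          · exact h1
          · exact absurd ((hhT i).mpr h1.symm) hi
        set τ : ℝ := g (V i0) / h (V i0) with hτ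
        have hτ0 : 0 ≤ τ := div_nonneg (hg i0 hi0'.1) (hh0 i0)
        refine ih (g - τ • h) ?_ ?_ ?_
        · intro i hi
          rw [LinearMap.sub_apply, LinearMap.smul_apply, smul_eq_mul]
          by_cases hiT : i ∈ T
          · rw [(hhT i).mp hiT, mul_zero, sub_zero]
            exact hg i hi
          · have h1 : τ ≤ g (V i) / h (V i) := hmin i (by simp [hi, hiT])
            rw [le_div_iff₀ (hhpos i hiT)] at h1
            linarith
        · rw [LinearMap.sub_apply, LinearMap.smul_apply, smul_eq_mul]
          have := mul_nonneg hτ0 hhy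
          linarith
        · have hlt : (Finset.univ.filter (fun i => i ∈ S ∧ (g - τ • h) (V i) ≠ 0)).card <
              (Finset.univ.filter (fun i => i ∈ S ∧ g (V i) ≠ 0)).card := by
            apply Finset.card_lt_card
            refine ⟨?_, ?_⟩
            · intro i hi
              have hi' : i ∈ S ∧ (g - τ • h) (V i) ≠ 0 := by simpa using hi
              have : i ∈ S ∧ g (V i) ≠ 0 := by
                refine ⟨hi'.1, fun h1 => hi'.2 ?_⟩
                have h2 : h (V i) = 0 := (hhT i).mp (hZT ⟨hi'.1, h1⟩)
                rw [LinearMap.sub_apply, LinearMap.smul_apply, smul_eq_mul, h1, h2]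
                ring
              simpa using this
            · intro hsub
              have h1 : i0 ∈ Finset.univ.filter (fun i => i ∈ S ∧ g (V i) ≠ 0) := by
                have : i0 ∈ S ∧ g (V i0) ≠ 0 := ⟨hi0'.1, fun h1 => hi0'.2 (hZT ⟨hi0'.1, h1⟩)⟩
                simpa using this
              have h2 := hsub h1
              have h3 : i0 ∈ S ∧ (g - τ • h) (V i0) ≠ 0 := by simpa using h2
              apply h3.2
              rw [LinearMap.sub_apply, LinearMap.smul_apply, smul_eq_mul, hτ,
                div_mul_cancel₀ _ (hhpos i0 hi0'.2).ne', sub_self]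
          omega
  exact key _ g hg hgy le_rfl

end Pool.Agent.H87R3.ESK
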